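import Pool.Agent.Helper14.PL.T1
import Pool.Agent.Helper33.DP3.Sheet

/-!
# The choice of the routing matrix (MP_fcb106_co, rows PEX and PEX3)
-/

set_option autoImplicit false

namespace Pool.Agent.Helper2.PL

open Finset Pool.Agent.Helper33.DP Pool.Agent.Helper33.DP3

/-- The routing matrices with entries at least `c`. -/
def ZP {w : ℕ} (G₂ : Gr w) (c : ℝ) : Set (Fin w → Fin w → ℝ) :=
  {P | DS G₂ P ∧ ∀ x b, (x, b) ∈ G₂ → c ≤ P x b}

theorem ZP_convex {w : ℕ} (G₂ : Gr w) (c : ℝ) : Convex ℝ (ZP G₂ c) := by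
  intro P hP Q hQ s t hs ht hst
  refine ⟨⟨?_, ?_, ?_, ?_⟩, ?_⟩
  · intro a b
    show 0 ≤ s * P a b + t * Q a b
    exact add_nonneg (mul_nonneg hs (hP.1.nonneg a b)) (mul_nonneg ht (hQ.1.nonneg a b))
  · intro a
    show ∑ b, (s * P a b + t * Q a b) = 1
    rw [sum_add_distrib, ← mul_sum, ← mul_sum, hP.1.row, hQ.1.row]; linarith
  · intro b
    show ∑ a, (s * P a b + t * Q a b) = 1
    rw [sum_add_distrib, ← mul_sum, ← mul_sum, hP.1.col, hQ.1.col]; linarith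
  · intro a b h
    show s * P a b + t * Q a b = 0
    rw [hP.1.supp a b h, hQ.1.supp a b h]; ring
  · intro a b h
    have h1 := mul_le_mul_of_nonneg_left (hP.2 a b h) hs
    have h2 := mul_le_mul_of_nonneg_left (hQ.2 a b h) ht
    have h3 : s * c + t * c = c := by rw [← add_mul, hst, one_mul]
    show c ≤ s * P a b + t * Q a b
    linarith

open Classical in
/-- The potential of a perfect matching. -/
noncomputable def pph {w : ℕ} (G₂ : Gr w) (s : Fin w → ℝ) (σ : Equiv.Perm (Fin w))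
    (P : Fin w → Fin w → ℝ) : ℝ :=
  if PM G₂ σ then ∑ i, (P i (σ i) * s (σ i))⁻¹ else 0

theorem pph_convex {w : ℕ} (G₂ : Gr w) (s : Fin w → ℝ) (hs : ∀ b, 0 < s b) {c : ℝ} (hc : 0 < c)
    (σ : Equiv.Perm (Fin w)) : ConvexOn ℝ (ZP G₂ c) (pph G₂ s σ) := by
  refine ⟨ZP_convex G₂ c, ?_⟩
  intro P hP Q hQ u v hu hv huv
  by_cases hσ : PM G₂ σ
  · simp only [pph, if_pos hσ, smul_eq_mul, mul_sum, ← sum_add_distrib]
    refine sum_le_sum fun i _ => ?_
    have e : (u • P + v • Q) i (σ i) * s (σ i) =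
        u * (P i (σ i) * s (σ i)) + v * (Q i (σ i) * s (σ i)) := by
      show (u * P i (σ i) + v * Q i (σ i)) * s (σ i) = _
      ring
    rw [e]
    exact Pool.Agent.Helper14.PL.inv_convex
      (mul_pos (lt_of_lt_of_le hc (hP.2 _ _ (hσ i))) (hs _))
      (mul_pos (lt_of_lt_of_le hc (hQ.2 _ _ (hσ i))) (hs _)) hu hv huv
  · simp [pph, if_neg hσ]

/-- A mixture with large entries. -/
theorem mix (h4 : ST_DS4) {w : ℕ} (hw : 1 ≤ w) {G : Gr w} (hG : IsCore G)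
    {D : Fin w → Fin w → ℝ} (hD : DS G D) {k : ℝ} (hk : 0 < k) (hk1 : k < 1) :
    ∃ D', DS G D' ∧ (∀ a b, (a, b) ∈ G → k / (w : ℝ) ^ 2 ≤ D' a b) ∧
      ∀ a b, (1 - k) * D a b ≤ D' a b := by
  obtain ⟨D0, hD0, hp0⟩ := h4 w G hw hG
  have h1k : 0 < 1 - k := by linarith
  refine ⟨fun a b => (1 - k) * D a b + k * D0 a b, ⟨?_, ?_, ?_, ?_⟩, ?_, ?_⟩
  · intro a b
    exact add_nonneg (mul_nonneg h1k.le (hD.nonneg a b)) (mul_nonneg hk.le (hD0.nonneg a b))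
  · intro a
    rw [sum_add_distrib, ← mul_sum, ← mul_sum, hD.row, hD0.row]; ring
  · intro b
    rw [sum_add_distrib, ← mul_sum, ← mul_sum, hD.col, hD0.col]; ring
  · intro a b hab
    show (1 - k) * D a b + k * D0 a b = 0
    rw [hD.supp a b hab, hD0.supp a b hab]; ring
  · intro a b hab
    have e1 := mul_le_mul_of_nonneg_left (hp0 a b hab) hk.le
    have e2 := mul_nonneg h1k.le (hD.nonneg a b)
    have e3 : k * (1 / (w : ℝ) ^ 2) = k / (w : ℝ) ^ 2 := by ring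
    show k / (w : ℝ) ^ 2 ≤ (1 - k) * D a b + k * D0 a b
    linarith
  · intro a b
    have e3 := mul_nonneg hk.le (hD0.nonneg a b)
    show (1 - k) * D a b ≤ (1 - k) * D a b + k * D0 a b
    linarith

/-- The value of a doubly stochastic matrix against a mixture. -/
theorem val_le {w : ℕ} {G₂ : Gr w} {s : Fin w → ℝ} {β k : ℝ} (hs : ∀ b, 0 < s b)
    (hsum : ∑ e ∈ G₂, (s e.2)⁻¹ ≤ β) (hk1 : k < 1) {D P : Fin w → Fin w → ℝ} (hD : DS G₂ D)
    (hpos : ∀ a b, (a, b) ∈ G₂ → 0 < P a b) (hP : ∀ a b, (1 - k) * D a b ≤ P a b) :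
    ∑ a, ∑ b, D a b * (P a b * s b)⁻¹ ≤ β / (1 - k) := by
  classical
  have h1k : 0 < 1 - k := by linarith
  rw [le_div_iff₀ h1k]
  refine le_trans ?_ hsum
  have e0 : ∑ e ∈ G₂, (s e.2)⁻¹ = ∑ a, ∑ b, if (a, b) ∈ G₂ then (s b)⁻¹ else 0 := by
    rw [← Fintype.sum_prod_type' (f := fun a b => if (a, b) ∈ G₂ then (s b)⁻¹ else 0)]
    simp only [Prod.mk.eta]
    rw [← sum_filter]
    exact sum_congr (by ext e; simp) fun _ _ => rfl
  rw [e0, sum_mul]
  refine sum_le_sum fun a _ => ?_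
  rw [sum_mul]
  refine sum_le_sum fun b _ => ?_
  split_ifs with h
  · have h1 := hpos a b h
    have h2 := hP a b
    have h3 : D a b * (1 - k) / P a b ≤ 1 := by
      rw [div_le_one h1]; linarith
    calc D a b * (P a b * s b)⁻¹ * (1 - k) = (D a b * (1 - k) / P a b) * (s b)⁻¹ := by
          rw [mul_inv]; ring
      _ ≤ 1 * (s b)⁻¹ := mul_le_mul_of_nonneg_right h3 (inv_nonneg.2 (hs b).le)
      _ = (s b)⁻¹ := one_mul _
  · rw [hD.supp a b h, zero_mul, zero_mul]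

/-- The choice of the routing matrix, with a free parameter. -/
theorem pex (hML : ST_ML) (h3 : ST_DS3) (h4 : ST_DS4) (w : ℕ) (G₂ : Gr w) (s : Fin w → ℝ)
    (β β' k : ℝ) (hw : 1 ≤ w) (hG : IsCore G₂) (hs : ∀ b, 0 < s b)
    (hsum : ∑ e ∈ G₂, (s e.2)⁻¹ ≤ β) (hk : 0 < k) (hk1 : k < 1) (hβ : β / (1 - k) < β') :
    ∃ P, DS G₂ P ∧ (∀ x b, (x, b) ∈ G₂ → k / (w : ℝ) ^ 2 ≤ P x b) ∧
      Bdd G₂ (fun x b => P x b * s b) β' := by
  classical
  have h1k : 0 < 1 - k := by linarith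
  have hw0 : (0 : ℝ) < w := by exact_mod_cast hw
  have hc : 0 < k / (w : ℝ) ^ 2 := by positivity
  have hβ0 : 0 ≤ β := le_trans (sum_nonneg fun e _ => inv_nonneg.2 (hs e.2).le) hsum
  obtain ⟨D0, hD0, -⟩ := h4 w G₂ hw hG
  obtain ⟨P, hP, hφ⟩ := hML (Equiv.Perm (Fin w)) (Fin w → Fin w → ℝ) (ZP G₂ (k / (w : ℝ) ^ 2))
    (pph G₂ s) (β / (1 - k)) β' (ZP_convex G₂ _) (pph_convex G₂ s hs hc) hβ (by
      intro θ hθ hθ1
      obtain ⟨D, hD, hf⟩ := Pool.Agent.Helper14.PL.norm_DS h3 G₂ ⟨D0, hD0⟩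
        (fun σ => if PM G₂ σ then θ σ else 0)
        (fun σ => by split_ifs; exact hθ _; exact le_rfl) (fun σ hσ => if_neg hσ)
      obtain ⟨P, hP, hPl, hPD⟩ := mix h4 hw hG hD hk hk1
      refine ⟨P, ⟨hP, hPl⟩, ?_⟩
      have hv := val_le hs hsum hk1 hD (fun a b h => lt_of_lt_of_le hc (hPl a b h)) hPD
      have s1 : ∑ σ, θ σ * pph G₂ s σ P = (∑ σ, if PM G₂ σ then θ σ else 0) *
          ∑ a, ∑ b, D a b * (P a b * s b)⁻¹ := by
        rw [← hf (fun a b => (P a b * s b)⁻¹)]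
        refine sum_congr rfl fun σ _ => ?_
        by_cases hσ : PM G₂ σ
        · simp only [pph, if_pos hσ]
        · simp only [pph, if_neg hσ, mul_zero, zero_mul]
      rw [s1]
      have t1 : (∑ σ, if PM G₂ σ then θ σ else 0) ≤ 1 := by
        rw [← hθ1]
        exact sum_le_sum fun σ _ => by split_ifs; exact le_rfl; exact hθ _
      have t3 : 0 ≤ (∑ σ, if PM G₂ σ then θ σ else 0) :=
        sum_nonneg fun σ _ => by split_ifs; exact hθ _; exact le_rfl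
      have hcc : 0 ≤ β / (1 - k) := div_nonneg hβ0 h1k.le
      calc (∑ σ, if PM G₂ σ then θ σ else 0) * ∑ a, ∑ b, D a b * (P a b * s b)⁻¹
          ≤ (∑ σ, if PM G₂ σ then θ σ else 0) * (β / (1 - k)) :=
            mul_le_mul_of_nonneg_left hv t3
        _ ≤ 1 * (β / (1 - k)) := mul_le_mul_of_nonneg_right t1 hcc
        _ = β / (1 - k) := one_mul _)
  refine ⟨P, hP.1, hP.2, ?_, ?_⟩
  · intro x b h
    exact mul_pos (lt_of_lt_of_le hc (hP.2 x b h)) (hs b)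
  · intro σ hσ
    have := hφ σ
    simp only [pph, if_pos hσ] at this
    exact this.le

/-- **ROW PEX** -/
theorem PEX (hML : ST_ML) (h3 : ST_DS3) (h4 : ST_DS4) : ST_PEX := by
  intro w G₂ s β β' hw hG hs hsum hβ
  have hw1 : (1 : ℝ) ≤ w := by exact_mod_cast hw
  have hw0 : (0 : ℝ) < w := by linarith
  have hk : 0 < yy w := by unfold yy; positivity
  have hk1 : yy w < 1 := by
    unfold yy
    rw [div_lt_one (by positivity)]
    have : (1 : ℝ) ≤ (w : ℝ) ^ 2 := one_le_pow₀ hw1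
    linarith
  obtain ⟨P, h1, h2, h5⟩ := pex hML h3 h4 w G₂ s β β' (yy w) hw hG hs hsum hk hk1 hβ
  refine ⟨P, h1, ?_, h5⟩
  intro x b h
  refine le_trans (le_of_eq ?_) (h2 x b h)
  unfold pp yy
  field_simp

/-- **ROW V3_PEX** -/
theorem PEX3 (hML : ST_ML) (h3 : ST_DS3) (h4 : ST_DS4) : ST_PEX3 := by
  intro w G₂ s β β' hw hG hs hsum hβ
  have hβ0 : 0 ≤ β := le_trans (sum_nonneg fun e _ => inv_nonneg.2 (hs e.2).le) hsum
  have hβ'0 : 0 < β' := lt_of_le_of_lt hβ0 hβ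
  obtain ⟨k, hk⟩ : ∃ k : ℝ, k = (β' - β) / (2 * β') := ⟨_, rfl⟩
  have hk0 : 0 < k := by rw [hk]; exact div_pos (by linarith) (by linarith)
  have hkβ : k * β' = (β' - β) / 2 := by rw [hk]; field_simp
  have hk1 : k < 1 := by
    rw [hk, div_lt_one (by linarith)]; linarith
  have h1k : 0 < 1 - k := by linarith
  have hβk : β / (1 - k) < β' := by
    rw [div_lt_iff₀ h1k]; nlinarith
  obtain ⟨P, h1, -, h5⟩ := pex hML h3 h4 w G₂ s β β' k hw hG hs hsum hk0 hk1 hβk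
  exact ⟨P, h1, h5⟩

end Pool.Agent.Helper2.PL
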